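import Pool.Agent.N71.PS.Tasks
import Pool.Agent.H38R2.CG.CC6
import Pool.Agent.H38R2.CG.NB

/-!
# Siegel-Walfisz for the primes in (y, 2y] with a small constant (project PS, task SW; helper759)
-/

set_option autoImplicit false

namespace Pool.Agent.N759.PS

open Finset Filter Pool.Agent.H38R2.CG Pool.Agent.N71.PS

open Pool.Agent.H262R3.Lk.SWQ in
theorem key (y q : ℕ) (χ : DirichletCharacter ℂ q) (hy : 1 ≤ y)
    (hL : 1 ≤ Real.log y)
    (hpi : ((Pool.Agent.H38R2.CG.PP y).card : ℝ) ≤ (11 / 10 : ℝ) * y / Real.log y)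
    (h1 : ‖SS χ y‖ ≤ 20 * y / (Real.log y) ^ 2)
    (h2 : ‖SS χ (2 * y)‖ ≤ 20 * ((2 * y : ℕ) : ℝ) / (Real.log ((2 * y : ℕ) : ℝ)) ^ 2) :
    Real.log y * ‖∑ p ∈ Pool.Agent.H38R2.CG.PP y, χ (p : ZMod q)‖ ≤
      60 * y / Real.log y ^ 2 + (11 / 10 : ℝ) * y / Real.log y := by
  have hy0 : (0 : ℝ) < y := by exact_mod_cast hy
  set L := Real.log y with hLdef
  have hL0 : 0 < L := by linarith
  set π : ℝ := ((Pool.Agent.H38R2.CG.PP y).card : ℝ) with hπ
  have hlog2 : L ≤ Real.log ((2 * y : ℕ) : ℝ) := by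
    apply Real.log_le_log hy0
    push_cast; linarith
  have h3 : ‖SS χ (2 * y)‖ ≤ 40 * y / L ^ 2 := by
    refine h2.trans ?_
    push_cast
    rw [show (20 * (2 * (y : ℝ))) = 40 * y by ring]
    apply div_le_div_of_nonneg_left (by positivity) (by positivity)
    have : L ≤ Real.log (2 * (y : ℝ)) := by simpa using hlog2
    exact pow_le_pow_left₀ hL0.le this 2
  have h4 : ‖∑ p ∈ Pool.Agent.H38R2.CG.PP y, χ (p : ZMod q) * ((Real.log p : ℝ) : ℂ)‖ ≤
      60 * y / L ^ 2 := by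
    rw [CC6h.sum_PP]
    refine (norm_sub_le _ _).trans ?_
    have : 60 * (y : ℝ) / L ^ 2 = 40 * y / L ^ 2 + 20 * y / L ^ 2 := by ring
    rw [this]
    exact add_le_add h3 h1
  have h5 : ‖∑ p ∈ Pool.Agent.H38R2.CG.PP y, χ (p : ZMod q) * ((Real.log p - L : ℝ) : ℂ)‖ ≤
      π := by
    refine (norm_sum_le _ _).trans ?_
    rw [hπ]
    have : ((Pool.Agent.H38R2.CG.PP y).card : ℝ) = ∑ p ∈ Pool.Agent.H38R2.CG.PP y, (1 : ℝ) := by
      simp
    rw [this]
    apply sum_le_sum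
    intro p hp
    rw [Pool.Agent.H38R2.CG.PP, mem_filter, mem_Ioc] at hp
    obtain ⟨⟨hp1, hp2⟩, hp3⟩ := hp
    have hpy : (y : ℝ) < p := by exact_mod_cast hp1
    have hp2y : (p : ℝ) ≤ 2 * y := by exact_mod_cast hp2
    rw [norm_mul, Complex.norm_real]
    have ha : 0 ≤ Real.log p - L := by
      have := Real.log_le_log hy0 hpy.le
      linarith
    have hb : Real.log p - L ≤ 1 := by
      have h := Real.log_le_log (by linarith : (0 : ℝ) < p) hp2y
      rw [Real.log_mul (by norm_num) (by positivity)] at h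
      have := Real.log_two_lt_d9
      linarith
    rw [Real.norm_of_nonneg ha]
    calc ‖χ (p : ZMod q)‖ * (Real.log p - L) ≤ 1 * 1 :=
          mul_le_mul (DirichletCharacter.norm_le_one χ _) hb ha zero_le_one
      _ = 1 := one_mul 1
  have h6 : (L : ℂ) * ∑ p ∈ Pool.Agent.H38R2.CG.PP y, χ (p : ZMod q) =
      ∑ p ∈ Pool.Agent.H38R2.CG.PP y, χ (p : ZMod q) * ((Real.log p : ℝ) : ℂ) -
        ∑ p ∈ Pool.Agent.H38R2.CG.PP y, χ (p : ZMod q) * ((Real.log p - L : ℝ) : ℂ) := by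
    rw [mul_sum, ← sum_sub_distrib]
    apply sum_congr rfl
    intro p _
    push_cast; ring
  have h7 : L * ‖∑ p ∈ Pool.Agent.H38R2.CG.PP y, χ (p : ZMod q)‖ ≤ 60 * y / L ^ 2 + π := by
    have : L * ‖∑ p ∈ Pool.Agent.H38R2.CG.PP y, χ (p : ZMod q)‖ =
        ‖(L : ℂ) * ∑ p ∈ Pool.Agent.H38R2.CG.PP y, χ (p : ZMod q)‖ := by
      rw [norm_mul, Complex.norm_real, Real.norm_of_nonneg hL0.le]
    rw [this, h6]
    exact (norm_sub_le _ _).trans (add_le_add h4 h5)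
  linarith

/-- SW -/
theorem sw : S_SW := by
  intro B ε hε
  obtain ⟨y1, hy1⟩ := T_NB.2
  obtain ⟨n1, hn1⟩ := Pool.Agent.H262R3.Lk.SWQ.SS_bound B
  have e1 : ∀ᶠ y : ℕ in Filter.atTop, 62 / ε + 1 ≤ Real.log y :=
    (Real.tendsto_log_atTop.comp tendsto_natCast_atTop_atTop).eventually_ge_atTop _
  obtain ⟨y2, hy2⟩ := Filter.eventually_atTop.mp e1
  refine ⟨max (max y1 n1) (max y2 1), ?_⟩
  intro y hy q hq1 hqL χ hprim
  have hyy1 : y1 ≤ y := ((le_max_left _ _).trans (le_max_left _ _)).trans hy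
  have hyn1 : n1 ≤ y := ((le_max_right _ _).trans (le_max_left _ _)).trans hy
  have hyy2 : y2 ≤ y := ((le_max_left _ _).trans (le_max_right _ _)).trans hy
  have hy1' : 1 ≤ y := ((le_max_right _ _).trans (le_max_right _ _)).trans hy
  have hL := hy2 y hyy2
  have hy0 : (0 : ℝ) < y := by exact_mod_cast hy1'
  have hε' : 0 < 62 / ε := by positivity
  have hL1 : 1 ≤ Real.log y := by linarith
  have hL0 : 0 < Real.log y := by linarith
  have hqL2 : (q : ℝ) ≤ (Real.log ((2 * y : ℕ) : ℝ)) ^ B := by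
    refine hqL.trans ?_
    apply pow_le_pow_left₀ hL0.le
    apply Real.log_le_log hy0
    push_cast; linarith
  have h := key y q χ hy1' hL1 (hy1 y hyy1).2 (hn1 y hyn1 q hq1 hqL χ hprim)
    (hn1 (2 * y) (by omega) q hq1 hqL2 χ hprim)
  set L := Real.log y with hLdef
  rw [le_div_iff₀ hL0]
  have h1 : 62 ≤ ε * L := by
    have h2 : 62 / ε ≤ L := by linarith
    rw [div_le_iff₀ hε] at h2
    linarith
  have h2 : 60 * (y : ℝ) / L ^ 2 ≤ 60 * y / L := by
    apply div_le_div_of_nonneg_left (by positivity) hL0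
    nlinarith
  have h3 : 60 * (y : ℝ) / L + (11 / 10 : ℝ) * y / L ≤ ε * y := by
    rw [← add_div, div_le_iff₀ hL0]
    nlinarith
  rw [mul_comm]
  linarith

end Pool.Agent.N759.PS
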